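import Pool.Agent.N757.AS.Stm
import Pool.Agent.H552R3.Tsen.Zero

/-! Project AS (MP_a793bb_nt), step DZ: existence of Davenport-Zannier pairs. -/

set_option autoImplicit false

namespace Pool.Agent.N8.AS.DZ

open Polynomial

/-- the polynomial `X ^ n + ∑ i < m, u i X ^ i` -/
noncomputable def gen {R : Type} [CommRing R] (n m : ℕ) (u : Fin m → R) : R[X] :=
  X ^ n + ∑ i : Fin m, C (u i) * X ^ (i : ℕ)

theorem gen_map {R S : Type} [CommRing R] [CommRing S] (f : R →+* S) (n m : ℕ) (u : Fin m → R) :
    (gen n m u).map f = gen n m (fun i => f (u i)) := by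
  simp [gen, Polynomial.map_sum]

theorem gen_zero {R : Type} [CommRing R] (n m : ℕ) (u : Fin m → R) (h : ∀ i, u i = 0) :
    gen n m u = X ^ n := by
  simp [gen, h]

theorem gen_monic {R : Type} [CommRing R] {n m : ℕ} (h : m ≤ n) (u : Fin m → R) :
    (gen n m u).Monic :=
  monic_X_pow_add (lt_of_lt_of_le (degree_sum_fin_lt u) (by exact_mod_cast h))

theorem gen_natDegree {R : Type} [CommRing R] [Nontrivial R] {n m : ℕ} (h : m ≤ n) (u : Fin m → R) :
    (gen n m u).natDegree = n := by
  have h1 : (∑ i : Fin m, C (u i) * X ^ (i : ℕ)).degree < (X ^ n : R[X]).degree := by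
    rw [degree_X_pow]
    exact lt_of_lt_of_le (degree_sum_fin_lt u) (by exact_mod_cast h)
  rw [gen, add_comm]
  have h2 := degree_add_eq_right_of_degree_lt h1
  rw [degree_X_pow] at h2
  exact natDegree_eq_of_degree_eq_some h2

theorem gen_coeff {R : Type} [CommRing R] {n m : ℕ} (h : m ≤ n) (u : Fin m → R) (i : Fin m) :
    (gen n m u).coeff i = u i := by
  have hi := i.isLt
  rw [gen, coeff_add, coeff_X_pow, if_neg (by omega), zero_add, finsetSum_coeff,
    Finset.sum_eq_single i]
  · simp
  · intro j _ hj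
    rw [coeff_C_mul_X_pow, if_neg (fun h' => hj (Fin.ext h'.symm))]
  · intro h'
    exact absurd (Finset.mem_univ i) h'

theorem gen_coeff_m {R : Type} [CommRing R] {n m : ℕ} (h : m < n) (u : Fin m → R) :
    (gen n m u).coeff m = 0 := by
  rw [gen, coeff_add, coeff_X_pow, if_neg (by omega), zero_add]
  exact coeff_eq_zero_of_degree_lt (degree_sum_fin_lt u)

theorem rm_pow {F : Type} [Field F] (c : F) (P : F[X]) (_hP : P ≠ 0) (n : ℕ) :
    rootMultiplicity c (P ^ n) = n * rootMultiplicity c P := by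
  classical
  rw [← count_roots, ← count_roots, roots_pow, Multiset.count_nsmul]

theorem eq_pow {F : Type} [Field F] {c : F} {P : F[X]} (hP : P.Monic) {n : ℕ}
    (hd : P.natDegree = n) (h : n ≤ rootMultiplicity c P) : P = (X - C c) ^ n := by
  have h1 : (X - C c) ^ n ∣ P := (pow_dvd_pow _ h).trans (pow_rootMultiplicity_dvd P c)
  have h2 : ((X - C c) ^ n).natDegree = n := by
    rw [natDegree_pow, natDegree_X_sub_C, mul_one]
  refine eq_of_monic_of_dvd_of_natDegree_le ((monic_X_sub_C c).pow n) hP h1 ?_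
  rw [h2, hd]

theorem t : Pool.Agent.N757.AS.StmDZ := by
  intro F _ _ _ a b ha hb hab
  let AA : (MvPolynomial (Fin (b - 1) ⊕ Fin a) F)[X] :=
    gen b (b - 1) (fun i => MvPolynomial.X (Sum.inl i))
  let BB : (MvPolynomial (Fin (b - 1) ⊕ Fin a) F)[X] :=
    gen a a (fun i => MvPolynomial.X (Sum.inr i))
  let A : ((Fin (b - 1) ⊕ Fin a) → F) → F[X] := fun v => gen b (b - 1) (fun i => v (Sum.inl i))
  let B : ((Fin (b - 1) ⊕ Fin a) → F) → F[X] := fun v => gen a a (fun i => v (Sum.inr i))
  have hA : ∀ v, AA.map (MvPolynomial.eval v) = A v := by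
    intro v
    show (gen b (b - 1) _).map (MvPolynomial.eval v) = _
    rw [gen_map]
    simp only [MvPolynomial.eval_X]
    rfl
  have hB : ∀ v, BB.map (MvPolynomial.eval v) = B v := by
    intro v
    show (gen a a _).map (MvPolynomial.eval v) = _
    rw [gen_map]
    simp only [MvPolynomial.eval_X]
    rfl
  let P : Fin (a + b - 2) → MvPolynomial (Fin (b - 1) ⊕ Fin a) F :=
    fun k => (AA ^ a - BB ^ b).coeff (a * b - 1 - k)
  have hP : ∀ v k, MvPolynomial.eval v (P k) = (A v ^ a - B v ^ b).coeff (a * b - 1 - k) := by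
    intro v k
    show MvPolynomial.eval v ((AA ^ a - BB ^ b).coeff (a * b - 1 - k)) = _
    rw [← coeff_map, Polynomial.map_sub, Polynomial.map_pow, Polynomial.map_pow, hA, hB]
  have hP0 : ∀ k, MvPolynomial.eval 0 (P k) = 0 := by
    intro k
    rw [hP]
    have h1 : A 0 = X ^ b := gen_zero _ _ _ (fun i => rfl)
    have h2 : B 0 = X ^ a := gen_zero _ _ _ (fun i => rfl)
    rw [h1, h2, ← pow_mul, ← pow_mul, mul_comm b a, sub_self, coeff_zero]
  have hcard : Fintype.card (Fin (a + b - 2)) < Fintype.card (Fin (b - 1) ⊕ Fin a) := by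
    rw [Fintype.card_sum, Fintype.card_fin, Fintype.card_fin, Fintype.card_fin]
    omega
  obtain ⟨v, hv0, hv⟩ := Pool.Agent.H552R3.Tsen.exists_common_zero P hP0 hcard
  have hAm : (A v).Monic := gen_monic (by omega) _
  have hBm : (B v).Monic := gen_monic le_rfl _
  have hAd : (A v).natDegree = b := gen_natDegree (by omega) _
  have hBd : (B v).natDegree = a := gen_natDegree le_rfl _
  have hne : A v ^ a ≠ B v ^ b := by
    intro heq
    obtain ⟨c, hc⟩ := IsAlgClosed.exists_root (A v) (by
      rw [degree_eq_natDegree hAm.ne_zero, hAd]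
      exact_mod_cast (by omega : b ≠ 0))
    have hm : a * rootMultiplicity c (A v) = b * rootMultiplicity c (B v) := by
      rw [← rm_pow c _ hAm.ne_zero, ← rm_pow c _ hBm.ne_zero, heq]
    have hm1 : 1 ≤ rootMultiplicity c (A v) := (rootMultiplicity_pos hAm.ne_zero).mpr hc
    have hm2 : b ∣ rootMultiplicity c (A v) := by
      have h1 : b ∣ a * rootMultiplicity c (A v) := ⟨_, hm⟩
      exact hab.symm.dvd_of_dvd_mul_left h1
    have hm3 : b ≤ rootMultiplicity c (A v) := Nat.le_of_dvd hm1 hm2
    have hA1 : A v = (X - C c) ^ b := eq_pow hAm hAd hm3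
    have hm4 : rootMultiplicity c (A v) = b := by
      have h1 := rootMultiplicity_X_sub_C_pow c b
      rw [← hA1] at h1
      exact h1
    have hm5 : a ≤ rootMultiplicity c (B v) := by
      rw [hm4, mul_comm] at hm
      exact (Nat.eq_of_mul_eq_mul_left (by omega) hm).le
    have hB1 : B v = (X - C c) ^ a := eq_pow hBm hBd hm5
    have hc0 : c = 0 := by
      have h1 : (A v).coeff (b - 1) = 0 := gen_coeff_m (by omega) _
      rw [hA1, sub_eq_add_neg, ← C_neg, coeff_X_add_C_pow] at h1
      have h2 : b - (b - 1) = 1 := by omega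
      have h3 : b.choose (b - 1) = b := by
        rw [← Nat.choose_symm (by omega), h2, Nat.choose_one_right]
      rw [h2, h3, pow_one, mul_eq_zero] at h1
      rcases h1 with h1 | h1
      · exact neg_eq_zero.mp h1
      · exfalso
        have h4 : b = 0 := by exact_mod_cast h1
        omega
    rw [hc0, C_0, sub_zero] at hA1 hB1
    apply hv0
    funext i
    rcases i with i | j
    · have h1 : (A v).coeff i = v (Sum.inl i) := gen_coeff (by omega) _ i
      rw [hA1, coeff_X_pow, if_neg (by omega)] at h1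
      exact h1.symm
    · have h1 : (B v).coeff j = v (Sum.inr j) := gen_coeff le_rfl _ j
      rw [hB1, coeff_X_pow, if_neg (by omega)] at h1
      exact h1.symm
  refine ⟨A v, B v, hAm, hBm, hAd, hBd, hne, ?_⟩
  by_contra hcon
  push Not at hcon
  have hD : A v ^ a - B v ^ b ≠ 0 := sub_ne_zero.mpr hne
  have hlc : (A v ^ a - B v ^ b).coeff (A v ^ a - B v ^ b).natDegree ≠ 0 := by
    rw [coeff_natDegree]
    exact leadingCoeff_ne_zero.mpr hD
  have hdA : (A v ^ a).natDegree = a * b := by rw [natDegree_pow, hAd]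
  have hdB : (B v ^ b).natDegree = a * b := by rw [natDegree_pow, hBd, mul_comm]
  have hle : (A v ^ a - B v ^ b).natDegree ≤ a * b := by
    refine (natDegree_sub_le _ _).trans ?_
    rw [hdA, hdB, max_self]
  have hnab : (A v ^ a - B v ^ b).natDegree ≠ a * b := by
    intro h
    apply hlc
    rw [h, coeff_sub]
    have h1 : (A v ^ a).coeff (a * b) = 1 := by
      rw [← hdA]
      exact (hAm.pow a).coeff_natDegree
    have h2 : (B v ^ b).coeff (a * b) = 1 := by
      rw [← hdB]
      exact (hBm.pow b).coeff_natDegree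
    rw [h1, h2, sub_self]
  generalize hn : (A v ^ a - B v ^ b).natDegree = n at hcon hlc hle hnab
  have hN : 1 ≤ a * b := Nat.mul_pos ha hb
  have hkk : a * b - 1 - n < a + b - 2 := by omega
  have h1 := hv ⟨a * b - 1 - n, hkk⟩
  rw [hP] at h1
  apply hlc
  have h2 : a * b - 1 - (a * b - 1 - n) = n := by omega
  rw [← h1]
  congr 1
  exact h2.symm

end Pool.Agent.N8.AS.DZ
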